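import Mathlib

/-!
# Random retractions

A closed subset `Y` of a metric space `X` is the range of a family of retractions
`r t : X → Y`, `0 ≤ t < 1`, which is continuous in measure.
-/

set_option autoImplicit false

open Set Topology Filter MeasureTheory

namespace Pool.Agent.V11281.FTVS

universe u

/-- partial sums over a finite set in a linear order -/
lemma exists_interval {S : Type u} [LinearOrder S] (w : S → ℝ) (A : Finset S) :
    ∀ t, 0 ≤ t → t < ∑ μ ∈ A, w μ → ∃ l ∈ A, ∑ μ ∈ A with μ < l, w μ ≤ t ∧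
      t < (∑ μ ∈ A with μ < l, w μ) + w l := by
  induction A using Finset.induction_on_max with
  | empty =>
    intro t h0 h1
    simp at h1
    linarith
  | insert a B hB ih =>
    intro t h0 h1
    have haB : a ∉ B := fun h => lt_irrefl _ (hB a h)
    rw [Finset.sum_insert haB] at h1
    by_cases h : t < ∑ μ ∈ B, w μ
    · obtain ⟨l, hl, h2, h3⟩ := ih t h0 h
      have h4 : (insert a B).filter (fun μ => μ < l) = B.filter (fun μ => μ < l) := by
        rw [Finset.filter_insert, if_neg (not_lt.2 (hB l hl).le)]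
      exact ⟨l, Finset.mem_insert_of_mem hl, by rw [h4]; exact h2, by rw [h4]; exact h3⟩
    · push Not at h
      have h4 : (insert a B).filter (fun μ => μ < a) = B := by
        rw [Finset.filter_insert, if_neg (lt_irrefl a), Finset.filter_true_of_mem hB]
      exact ⟨a, Finset.mem_insert_self _ _, by rw [h4]; exact h, by rw [h4]; linarith⟩

lemma interval_unique {S : Type u} [LinearOrder S] {w : S → ℝ} (hw : ∀ μ, 0 ≤ w μ) {A : Finset S}
    {t : ℝ} {l l' : S} (hl : l ∈ A) (h2 : t < (∑ μ ∈ A with μ < l, w μ) + w l)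
    (h1' : ∑ μ ∈ A with μ < l', w μ ≤ t) : ¬ l < l' := by
  intro hll
  have h3 : (∑ μ ∈ A with μ < l, w μ) + w l ≤ ∑ μ ∈ A with μ < l', w μ := by
    have h4 : insert l (A.filter fun μ => μ < l) ⊆ A.filter fun μ => μ < l' := by
      intro μ hμ
      rw [Finset.mem_insert] at hμ
      rcases hμ with rfl | hμ
      · exact Finset.mem_filter.2 ⟨hl, hll⟩
      · rw [Finset.mem_filter] at hμ ⊢
        exact ⟨hμ.1, hμ.2.trans hll⟩
    have h5 := Finset.sum_le_sum_of_subset_of_nonneg h4 (fun μ _ _ => hw μ)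
    rw [Finset.sum_insert (by simp)] at h5
    linarith
  linarith

/-- a partition of unity on a space `S` gives random selections of indices -/
theorem exists_selection {S : Type u} [TopologicalSpace S] {I : Type u}
    (ρ : PartitionOfUnity I S univ) :
    ∃ σ : ℝ → S → I, (∀ t ∈ Ico (0 : ℝ) 1, ∀ x, 0 < ρ (σ t x) x) ∧
      (∀ x, (((fun t => σ t x)) '' (Ico (0 : ℝ) 1)).Finite) ∧
      ∀ x0, ∀ ε > 0, ∀ᶠ x in 𝓝 x0, volume {t | t ∈ Ico (0 : ℝ) 1 ∧ σ t x ≠ σ t x0} < ε := by
  classical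
  letI : LinearOrder I := linearOrderOfSTO (WellOrderingRel (α := I))
  have hex : ∀ x : S, ∀ t ∈ Ico (0 : ℝ) 1, ∃ l ∈ ρ.finsupport x,
      ∑ μ ∈ ρ.finsupport x with μ < l, ρ μ x ≤ t ∧
      t < (∑ μ ∈ ρ.finsupport x with μ < l, ρ μ x) + ρ l x := by
    intro x t ht
    exact exists_interval (fun μ => ρ μ x) (ρ.finsupport x) t ht.1
      (by rw [ρ.sum_finsupport (mem_univ x)]; exact ht.2)
  by_cases hS : Nonempty S
  swap
  · have : IsEmpty S := not_nonempty_iff.1 hS
    exact ⟨fun _ x => isEmptyElim x, fun _ _ x => isEmptyElim x, fun x => isEmptyElim x,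
      fun x => isEmptyElim x⟩
  obtain ⟨s0⟩ := hS
  have hI : Nonempty I := by
    obtain ⟨l, -, -⟩ := hex s0 0 ⟨le_rfl, one_pos⟩
    exact ⟨l⟩
  choose! σ hσ1 hσ2 hσ3 using hex
  refine ⟨fun t x => σ x t, ?_, ?_, ?_⟩
  · intro t ht x
    have := hσ1 x t ht
    rw [ρ.mem_finsupport] at this
    exact lt_of_le_of_ne (ρ.nonneg _ _) (Ne.symm this)
  · intro x
    refine (ρ.finsupport x).finite_toSet.subset ?_
    rintro _ ⟨t, ht, rfl⟩
    exact hσ1 x t ht
  · intro x0 ε hε
    set F := ρ.fintsupport x0 with hF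
    let C : I → S → ℝ := fun l x => ∑ μ ∈ F with μ < l, ρ μ x
    have hCc : ∀ l, Continuous (C l) := fun l =>
      continuous_finset_sum _ fun μ _ => (ρ μ).continuous
    have hCeq : ∀ x, ρ.finsupport x ⊆ F → ∀ l, ∑ μ ∈ ρ.finsupport x with μ < l, ρ μ x = C l x := by
      intro x hx l
      refine Finset.sum_subset (Finset.filter_subset_filter _ hx) fun μ hμ hμ' => ?_
      rw [Finset.mem_filter] at hμ hμ'
      by_contra hne
      exact hμ' ⟨(ρ.mem_finsupport x).2 hne, hμ.2⟩
    have hx0F : ρ.finsupport x0 ⊆ F := ρ.finsupport_subset_fintsupport x0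
    -- the total length of the bad intervals
    let B : S → ℝ := fun x => ∑ l ∈ F, (|C l x - C l x0| +
      |(C l x + ρ l x) - (C l x0 + ρ l x0)|)
    have hBc : Continuous B := by
      refine continuous_finset_sum _ fun l _ => ?_
      have h1 := hCc l
      have h2 := (ρ l).continuous
      fun_prop
    have hB0 : B x0 = 0 := by simp [B]
    have hBs : ∀ᶠ x in 𝓝 x0, ENNReal.ofReal (B x) < ε := by
      have h1 : Tendsto (fun x => ENNReal.ofReal (B x)) (𝓝 x0) (𝓝 (ENNReal.ofReal (B x0))) :=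
        (ENNReal.continuous_ofReal.comp hBc).tendsto x0
      rw [hB0, ENNReal.ofReal_zero] at h1
      exact h1.eventually (gt_mem_nhds hε)
    filter_upwards [hBs, ρ.eventually_finsupport_subset x0] with x hx1 hx2
    refine lt_of_le_of_lt ?_ hx1
    have hsub : {t | t ∈ Ico (0 : ℝ) 1 ∧ σ x t ≠ σ x0 t} ⊆
        ⋃ l ∈ F, (uIcc (C l x0) (C l x) ∪ uIcc (C l x0 + ρ l x0) (C l x + ρ l x)) := by
      rintro t ⟨ht, hne⟩
      by_contra hcon
      simp only [mem_iUnion, not_exists, mem_union, not_or] at hcon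
      have hl0 := hσ1 x0 t ht
      have hlF : σ x0 t ∈ F := hx0F hl0
      have h2 := hσ2 x0 t ht
      have h3 := hσ3 x0 t ht
      rw [hCeq x0 hx0F] at h2 h3
      obtain ⟨hc1, hc2⟩ := hcon _ hlF
      have h4 : C (σ x0 t) x ≤ t := by
        by_contra h
        push Not at h
        exact hc1 (Set.mem_uIcc.2 (Or.inl ⟨h2, h.le⟩))
      have h5 : t < C (σ x0 t) x + ρ (σ x0 t) x := by
        by_contra h
        push Not at h
        exact hc2 (Set.mem_uIcc.2 (Or.inr ⟨h, h3.le⟩))
      have h2' := hσ2 x t ht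
      have h3' := hσ3 x t ht
      have hlx : σ x t ∈ F := hx2 (hσ1 x t ht)
      rw [hCeq x hx2] at h2' h3'
      rcases lt_trichotomy (σ x t) (σ x0 t) with h | h | h
      · exact interval_unique (w := fun μ => ρ μ x) (fun μ => ρ.nonneg μ x) hlx h3' h4 h
      · exact hne h
      · exact interval_unique (w := fun μ => ρ μ x) (fun μ => ρ.nonneg μ x) hlF h5 h2' h
    refine (measure_mono hsub).trans ?_
    refine (measure_biUnion_finset_le _ _).trans ?_
    rw [ENNReal.ofReal_sum_of_nonneg (fun l _ => by positivity)]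
    refine Finset.sum_le_sum fun l _ => ?_
    refine (measure_union_le _ _).trans ?_
    rw [Real.volume_interval, Real.volume_interval, ENNReal.ofReal_add (abs_nonneg _) (abs_nonneg _)]

/-- **Random retractions** onto closed subsets of metric spaces. -/
theorem exists_random_retraction {X : Type u} [MetricSpace X] {Y : Set X} (hY : IsClosed Y)
    (hne : Y.Nonempty) : ∃ r : ℝ → X → Y, (∀ t, ∀ y : Y, r t y = y) ∧
      (∀ x, ((fun t => r t x) '' (Ico (0 : ℝ) 1)).Finite) ∧
      (∀ x0 ∉ Y, ∀ ε > 0, ∀ᶠ x in 𝓝 x0,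
        volume {t | t ∈ Ico (0 : ℝ) 1 ∧ r t x ≠ r t x0} < ε) ∧
      ∀ t ∈ Ico (0 : ℝ) 1, ∀ x, ∀ y ∈ Y, dist (r t x : X) y ≤ 4 * dist x y := by
  classical
  obtain ⟨y0, hy0⟩ := hne
  let S : Type u := {x : X // x ∉ Y}
  have hpos : ∀ s : S, 0 < Metric.infDist (s : X) Y := fun s =>
    (hY.notMem_iff_infDist_pos ⟨y0, hy0⟩).1 s.2
  have hyex : ∀ s : S, ∃ y ∈ Y, dist (s : X) y < 2 * Metric.infDist (s : X) Y := by
    intro s
    have h1 : Metric.infDist (s : X) Y < 2 * Metric.infDist (s : X) Y := by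
      linarith [hpos s]
    exact (Metric.infDist_lt_iff ⟨y0, hy0⟩).1 h1
  choose y hyY hyd using hyex
  let U : S → Set S := fun s => {x | dist (x : X) s < Metric.infDist (s : X) Y / 4}
  have hU : ∀ s, IsOpen (U s) := fun s =>
    isOpen_lt ((continuous_subtype_val).dist continuous_const) continuous_const
  obtain ⟨ρ, hρ⟩ := PartitionOfUnity.exists_isSubordinate (X := S) isClosed_univ U hU (by
    intro s _
    refine mem_iUnion.2 ⟨s, ?_⟩
    change dist (s : X) s < _
    rw [dist_self]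
    have := hpos s
    positivity)
  obtain ⟨σ, hσ1, hσ2, hσ3⟩ := exists_selection ρ
  refine ⟨fun t x => if h : x ∈ Y then ⟨x, h⟩ else ⟨y (σ t ⟨x, h⟩), hyY _⟩, ?_, ?_, ?_, ?_⟩
  · intro t y
    simp
  · intro x
    by_cases h : x ∈ Y
    · simp only [dif_pos h]
      exact (finite_singleton (⟨x, h⟩ : Y)).subset (by rintro _ ⟨t, _, rfl⟩; rfl)
    · simp only [dif_neg h]
      refine ((hσ2 ⟨x, h⟩).image fun s => (⟨y s, hyY s⟩ : Y)).subset ?_
      rintro _ ⟨t, ht, rfl⟩
      exact ⟨_, ⟨t, ht, rfl⟩, rfl⟩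
  · intro x0 hx0 ε hε
    have h1 := hσ3 ⟨x0, hx0⟩ ε hε
    have h2 : ∀ᶠ x in 𝓝 x0, ∀ h : x ∉ Y,
        volume {t | t ∈ Ico (0 : ℝ) 1 ∧ σ t ⟨x, h⟩ ≠ σ t ⟨x0, hx0⟩} < ε := by
      rw [nhds_subtype_eq_comap, Filter.eventually_comap] at h1
      filter_upwards [h1] with x hx h
      exact hx ⟨x, h⟩ rfl
    filter_upwards [h2, hY.isOpen_compl.mem_nhds hx0] with x hx hxY
    have hxY' : x ∉ Y := hxY
    refine lt_of_le_of_lt (measure_mono ?_) (hx hxY')
    rintro t ⟨ht, hne⟩
    refine ⟨ht, fun heq => hne ?_⟩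
    simp only [dif_neg hxY', dif_neg hx0]
    rw [heq]
  · intro t ht x y' hy'
    by_cases h : x ∈ Y
    · simp only [dif_pos h]
      have := dist_nonneg (x := x) (y := y')
      linarith
    · simp only [dif_neg h]
      set s := σ t ⟨x, h⟩ with hs
      have h1 : (⟨x, h⟩ : S) ∈ U s := by
        apply hρ s
        apply subset_tsupport
        exact (hσ1 t ht ⟨x, h⟩).ne'
      have h2 : dist x (s : X) < Metric.infDist (s : X) Y / 4 := h1
      have h3 : Metric.infDist (s : X) Y ≤ Metric.infDist x Y + dist (s : X) x :=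
        Metric.infDist_le_infDist_add_dist
      have h4 : Metric.infDist x Y ≤ dist x y' := Metric.infDist_le_dist_of_mem hy'
      have h5 := hyd s
      have h6 := dist_triangle (y s) (s : X) y'
      have h7 := dist_triangle (s : X) x y'
      rw [dist_comm (y s) (s : X)] at h6
      rw [dist_comm (s : X) x] at h7 h3
      linarith

end Pool.Agent.V11281.FTVS
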