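import Mathlib

/-!
# Free topological vector spaces

`V X` is the vector space of finitely supported functions `X → ℝ` with the finest vector space
topology for which the canonical map `ι : X → V X` is continuous.
-/

set_option autoImplicit false

open Set Topology Filter

namespace Pool.Agent.V11281.FTVS

universe u v

/-- the underlying vector space of the free topological vector space -/
def V (X : Type u) : Type u := X →₀ ℝ

noncomputable instance (X : Type u) : AddCommGroup (V X) := inferInstanceAs (AddCommGroup (X →₀ ℝ))

noncomputable instance (X : Type u) : Module ℝ (V X) := inferInstanceAs (Module ℝ (X →₀ ℝ))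

/-- the canonical map -/
noncomputable def ι {X : Type u} (x : X) : V X := (Finsupp.single x (1 : ℝ) : X →₀ ℝ)

/-- vector space topologies for which the canonical map is continuous -/
def Adm (X : Type u) [TopologicalSpace X] : Set (TopologicalSpace (V X)) :=
  {t | @IsTopologicalAddGroup (V X) t _ ∧ @ContinuousSMul ℝ (V X) _ _ t ∧
    @Continuous X (V X) _ t ι}

variable {X : Type u} [TopologicalSpace X]

/-- the free vector space topology: the finest one in `Adm X` (it is generated by the union of all
topologies in `Adm X`) -/
noncomputable instance : TopologicalSpace (V X) := sInf (Adm X)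

instance : IsTopologicalAddGroup (V X) := topologicalAddGroup_sInf fun t ht => ht.1

instance : ContinuousSMul ℝ (V X) := continuousSMul_sInf fun t ht => ht.2.1

lemma continuous_ι : Continuous (ι : X → V X) := continuous_sInf_rng.2 fun t ht => ht.2.2

/-- induction principle -/
lemma V_induction {p : V X → Prop} (h0 : p 0) (hadd : ∀ (x : X) (a : ℝ) (v : V X), p v →
    p (a • ι x + v)) (v : V X) : p v := by
  have : ∀ v : X →₀ ℝ, p v := by
    intro v
    induction v using Finsupp.induction with
    | zero => exact h0
    | single_add x a v _ _ ih =>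
      have h1 := hadd x a v ih
      have h2 : (a • ι x : V X) = (Finsupp.single x a : X →₀ ℝ) := by
        change a • (Finsupp.single x (1 : ℝ) : X →₀ ℝ) = _
        rw [Finsupp.smul_single, smul_eq_mul, mul_one]
      rw [h2] at h1
      exact h1
  exact this v

section lift

variable {E : Type v} [AddCommGroup E] [Module ℝ E]

/-- the linear extension of a map -/
noncomputable def lift (f : X → E) : V X →ₗ[ℝ] E :=
  (Finsupp.lift E ℝ X f : (X →₀ ℝ) →ₗ[ℝ] E)

lemma lift_ι (f : X → E) (x : X) : lift f (ι x) = f x := by
  change (Finsupp.lift E ℝ X f) (Finsupp.single x (1 : ℝ)) = f x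
  simp

variable [TopologicalSpace E] [IsTopologicalAddGroup E] [ContinuousSMul ℝ E]

/-- the extension property -/
lemma continuous_lift {f : X → E} (hf : Continuous f) : Continuous (lift f : V X → E) := by
  rw [continuous_iff_le_induced]
  apply sInf_le
  refine ⟨topologicalAddGroup_induced _, continuousSMul_induced _, ?_⟩
  rw [continuous_induced_rng]
  have : (lift f : V X → E) ∘ ι = f := funext fun x => lift_ι f x
  rw [this]
  exact hf

/-- uniqueness of the extension -/
lemma lift_unique {f : X → E} (g : V X →ₗ[ℝ] E) (hg : ∀ x, g (ι x) = f x) : g = lift f := by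
  ext v
  induction v using V_induction with
  | h0 => rw [map_zero, map_zero]
  | hadd x a v ih => rw [map_add, map_add, map_smul, map_smul, hg, lift_ι, ih]

end lift

/-- `V X` with `ι` has the universal property of the free topological vector space -/
theorem universal_property {E : Type v} [AddCommGroup E] [Module ℝ E] [TopologicalSpace E]
    [IsTopologicalAddGroup E] [ContinuousSMul ℝ E] {f : X → E} (hf : Continuous f) :
    ∃! g : V X →L[ℝ] E, ∀ x, g (ι x) = f x := by
  refine ⟨⟨lift f, continuous_lift hf⟩, fun x => lift_ι f x, fun g hg => ?_⟩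
  ext v
  exact congrArg (fun h : V X →ₗ[ℝ] E => h v) (lift_unique (g : V X →ₗ[ℝ] E) hg)

/-- the levels: sums of `n` terms `l i • ι (x i)` with `|l i| ≤ n` -/
def sp (X : Type u) (n : ℕ) : Set (V X) :=
  {v | ∃ (l : Fin n → ℝ) (x : Fin n → X), (∀ i, l i ∈ Icc (-(n : ℝ)) n) ∧
    v = ∑ i, l i • ι (x i)}

/-- a set all of whose subsets are closed -/
def CD (S : Set X) : Prop := ∀ T ⊆ S, IsClosed T

lemma CD.mono {S T : Set X} (hS : CD S) (h : T ⊆ S) : CD T := fun R hR => hS R (hR.trans h)

/-- in a normal space, real functions on a closed discrete set can be extended -/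
lemma CD.exists_extension [NormalSpace X] {S : Set X} (hS : CD S) (g : X → ℝ) :
    ∃ f : X → ℝ, Continuous f ∧ ∀ x ∈ S, f x = g x := by
  have hc : Continuous (fun x : S => g x) := by
    rw [continuous_iff_isClosed]
    intro C _
    have h1 : IsClosed (Subtype.val '' ((fun x : S => g x) ⁻¹' C) : Set X) :=
      hS _ (by rintro _ ⟨x, _, rfl⟩; exact x.2)
    have h2 := h1.preimage (continuous_subtype_val (p := fun x => x ∈ S))
    rwa [preimage_image_eq _ Subtype.val_injective] at h2
  obtain ⟨f, hf⟩ := ContinuousMap.exists_restrict_eq (hS S subset_rfl) ⟨_, hc⟩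
  refine ⟨f, f.continuous, fun x hx => ?_⟩
  exact DFunLike.congr_fun hf ⟨x, hx⟩

lemma CD_of_finite [T1Space X] {S : Set X} (hS : S.Finite) : CD S :=
  fun _ hT => (hS.subset hT).isClosed

/-- the free topological vector space is Hausdorff -/
instance [NormalSpace X] [T1Space X] : T2Space (V X) := by
  refine t2Space_iff_disjoint_nhds.2 ?_ |> fun h => h
  intro v w hvw
  -- a separating functional
  have hne : ∃ x : X, (show X →₀ ℝ from (v - w)) x ≠ 0 := by
    by_contra hcon
    push Not at hcon
    exact hvw (sub_eq_zero.1 (Finsupp.ext hcon : (show X →₀ ℝ from (v - w)) = 0))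
  obtain ⟨x, hx⟩ := hne
  classical
  obtain ⟨f, hf, hfS⟩ := (CD_of_finite (X := X)
    (((show X →₀ ℝ from (v - w)).support : Set X).toFinite)).exists_extension
      (fun y => if y = x then 1 else 0)
  have hval : lift f (v - w) = (show X →₀ ℝ from (v - w)) x := by
    change (Finsupp.lift ℝ ℝ X f) (show X →₀ ℝ from (v - w)) = _
    rw [Finsupp.lift_apply, Finsupp.sum, Finset.sum_eq_single x]
    · rw [hfS x (by simpa using hx), if_pos rfl, smul_eq_mul, mul_one]
    · intro y hy hyx
      rw [hfS y hy, if_neg hyx, smul_zero]
    · intro h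
      rw [Finsupp.notMem_support_iff.1 h, zero_smul]
  have hne2 : lift f v ≠ lift f w := by
    intro h
    rw [map_sub, h, sub_self] at hval
    exact hx hval.symm
  have hc := continuous_lift hf
  obtain ⟨A, B, hA, hB, hvA, hwB, hAB⟩ := t2_separation hne2
  exact Filter.disjoint_iff.2 ⟨_, (hA.preimage hc).mem_nhds hvA, _, (hB.preimage hc).mem_nhds hwB,
    hAB.preimage _⟩

end Pool.Agent.V11281.FTVS
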