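import Pool.Agent.V11281.FTVS.Basic

/-!
# Products of weak topologies of exhaustions by compact sets
-/

set_option autoImplicit false

open Set Topology Filter Pointwise

namespace Pool.Agent.V11281.FTVS

universe u v

section General

variable {P : Type u} {Q : Type v} [TopologicalSpace P] [TopologicalSpace Q]

/-- weakly open sets with respect to a sequence of subsets -/
def KOpen (C : ℕ → Set P) (U : Set P) : Prop := ∀ n, ∃ O, IsOpen O ∧ O ∩ C n = U ∩ C n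

lemma IsOpen.kOpen {C : ℕ → Set P} {U : Set P} (hU : IsOpen U) : KOpen C U :=
  fun _ => ⟨U, hU, rfl⟩

/-- the weak topology -/
def kt (C : ℕ → Set P) : TopologicalSpace P where
  IsOpen := KOpen C
  isOpen_univ := fun _ => ⟨univ, isOpen_univ, rfl⟩
  isOpen_inter := by
    intro s t hs ht n
    obtain ⟨O, hO, hOs⟩ := hs n
    obtain ⟨O', hO', hOt⟩ := ht n
    refine ⟨O ∩ O', hO.inter hO', ?_⟩
    rw [inter_inter_distrib_right, hOs, hOt, ← inter_inter_distrib_right]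
  isOpen_sUnion := by
    intro S hS n
    choose! O hO hOS using fun s hs => hS s hs n
    refine ⟨⋃ s ∈ S, O s, isOpen_biUnion hO, ?_⟩
    rw [sUnion_eq_biUnion, iUnion₂_inter, iUnion₂_inter]
    exact iUnion₂_congr hOS

lemma isOpen_kt {C : ℕ → Set P} {U : Set P} : IsOpen[kt C] U ↔ KOpen C U := Iff.rfl

variable [R1Space P] [R1Space Q] [RegularSpace P] [RegularSpace Q]

/-- the box lemma -/
theorem exists_box {C : ℕ → Set P} {D : ℕ → Set Q} (hC : ∀ n, IsCompact (C n))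
    (hD : ∀ n, IsCompact (D n)) (hCc : ∀ n, IsClosed (C n)) (hDc : ∀ n, IsClosed (D n))
    (hCm : Monotone C) (hDm : Monotone D)
    {W : Set (P × Q)} (hW : ∀ n, ∃ O, IsOpen O ∧ O ∩ (C n ×ˢ D n) = W ∩ (C n ×ˢ D n))
    {x : P} {y : Q} (hp : (x, y) ∈ W) (hx : ∃ n, x ∈ C n) (hy : ∃ n, y ∈ D n) :
    ∃ (U : Set P) (U' : Set Q), KOpen C U ∧ KOpen D U' ∧ x ∈ U ∧ y ∈ U' ∧ U ×ˢ U' ⊆ W := by
  obtain ⟨a, ha⟩ := hx
  obtain ⟨b, hb⟩ := hy
  set m := max a b with hm
  have hxm : x ∈ C m := hCm (le_max_left a b) ha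
  have hym : y ∈ D m := hDm (le_max_right a b) hb
  let Good : ℕ → Set P × Set Q → Prop := fun k p =>
    IsCompact p.1 ∧ IsCompact p.2 ∧ p.1 ⊆ C (m + k) ∧ p.2 ⊆ D (m + k) ∧ p.1 ×ˢ p.2 ⊆ W
  have step : ∀ k (p : Set P × Set Q), Good k p → ∃ (p' : Set P × Set Q) (O : Set P)
      (O' : Set Q), Good (k + 1) p' ∧ IsOpen O ∧ IsOpen O' ∧ p.1 ⊆ O ∧ p.2 ⊆ O' ∧
      O ∩ C (m + k + 1) ⊆ p'.1 ∧ O' ∩ D (m + k + 1) ⊆ p'.2 := by
    rintro k ⟨A, B⟩ ⟨hA, hB, hAC, hBD, hAB⟩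
    obtain ⟨O, hO, hOW⟩ := hW (m + k + 1)
    have hsub : A ×ˢ B ⊆ O := by
      intro z hz
      have : z ∈ W ∩ (C (m + k + 1) ×ˢ D (m + k + 1)) :=
        ⟨hAB hz, hCm (Nat.le_succ _) (hAC hz.1), hDm (Nat.le_succ _) (hBD hz.2)⟩
      rw [← hOW] at this
      exact this.1
    obtain ⟨U1, V1, hU1, hV1, hAU1, hBV1, hUV1⟩ := generalized_tube_lemma hA hB hO hsub
    obtain ⟨U2, hU2, hAU2, hU2c⟩ :=
      hA.exists_isOpen_closure_subset (hU1.mem_nhdsSet.2 hAU1)
    obtain ⟨V2, hV2, hBV2, hV2c⟩ :=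
      hB.exists_isOpen_closure_subset (hV1.mem_nhdsSet.2 hBV1)
    refine ⟨(closure U2 ∩ C (m + k + 1), closure V2 ∩ D (m + k + 1)), U2, V2,
      ⟨(hC _).inter_left isClosed_closure, (hD _).inter_left isClosed_closure,
        inter_subset_right, inter_subset_right, ?_⟩, hU2, hV2, hAU2, hBV2,
      inter_subset_inter_left _ subset_closure, inter_subset_inter_left _ subset_closure⟩
    rintro ⟨u, w⟩ ⟨⟨hu1, hu2⟩, ⟨hw1, hw2⟩⟩
    have : (u, w) ∈ O ∩ (C (m + k + 1) ×ˢ D (m + k + 1)) :=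
      ⟨hUV1 ⟨hU2c hu1, hV2c hw1⟩, hu2, hw2⟩
    rw [hOW] at this
    exact this.1
  choose! nx O O' hgood hO hO' hsO hsO' hOs hOs' using step
  let s : ∀ k, {p : Set P × Set Q // Good k p} := fun k =>
    Nat.rec ⟨({x}, {y}), isCompact_singleton, isCompact_singleton,
      by simpa using hxm, by simpa using hym, by
        rintro ⟨u, w⟩ ⟨hu, hw⟩
        rw [mem_singleton_iff] at hu hw
        subst hu; subst hw
        exact hp⟩ (fun k p => ⟨nx k p.1, hgood k p.1 p.2⟩) k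
  have hs0 : (s 0).1 = ({x}, {y}) := rfl
  have hs : ∀ k, (s (k + 1)).1 = nx k (s k).1 := fun k => rfl
  have hmA : ∀ k, (s k).1.1 ⊆ (s (k + 1)).1.1 := by
    intro k z hz
    rw [hs]
    apply hOs k (s k).1 (s k).2
    exact ⟨hsO k _ (s k).2 hz, hCm (Nat.le_succ _) ((s k).2.2.2.1 hz)⟩
  have hmB : ∀ k, (s k).1.2 ⊆ (s (k + 1)).1.2 := by
    intro k z hz
    rw [hs]
    apply hOs' k (s k).1 (s k).2
    exact ⟨hsO' k _ (s k).2 hz, hDm (Nat.le_succ _) ((s k).2.2.2.2.1 hz)⟩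
  have hmonoA : Monotone fun k => (s k).1.1 := monotone_nat_of_le_succ hmA
  have hmonoB : Monotone fun k => (s k).1.2 := monotone_nat_of_le_succ hmB
  refine ⟨⋃ k, (s k).1.1, ⋃ k, (s k).1.2, ?_, ?_, ?_, ?_, ?_⟩
  · intro j
    refine ⟨⋃ k, ⋃ _ : j ≤ k, O k (s k).1, isOpen_iUnion fun k => isOpen_iUnion fun _ =>
      hO k _ (s k).2, ?_⟩
    ext z
    simp only [mem_inter_iff, mem_iUnion, exists_prop]
    constructor
    · rintro ⟨⟨k, hjk, hz⟩, hzj⟩
      refine ⟨⟨k + 1, ?_⟩, hzj⟩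
      rw [hs]
      exact hOs k _ (s k).2 ⟨hz, hCm (by omega) hzj⟩
    · rintro ⟨⟨k, hz⟩, hzj⟩
      refine ⟨⟨max j k, le_max_left _ _, ?_⟩, hzj⟩
      exact hsO _ _ (s _).2 (hmonoA (le_max_right j k) hz)
  · intro j
    refine ⟨⋃ k, ⋃ _ : j ≤ k, O' k (s k).1, isOpen_iUnion fun k => isOpen_iUnion fun _ =>
      hO' k _ (s k).2, ?_⟩
    ext z
    simp only [mem_inter_iff, mem_iUnion, exists_prop]
    constructor
    · rintro ⟨⟨k, hjk, hz⟩, hzj⟩
      refine ⟨⟨k + 1, ?_⟩, hzj⟩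
      rw [hs]
      exact hOs' k _ (s k).2 ⟨hz, hDm (by omega) hzj⟩
    · rintro ⟨⟨k, hz⟩, hzj⟩
      refine ⟨⟨max j k, le_max_left _ _, ?_⟩, hzj⟩
      exact hsO' _ _ (s _).2 (hmonoB (le_max_right j k) hz)
  · exact mem_iUnion.2 ⟨0, by rw [hs0]; rfl⟩
  · exact mem_iUnion.2 ⟨0, by rw [hs0]; rfl⟩
  · rintro ⟨u, w⟩ ⟨hu, hw⟩
    obtain ⟨k, hk⟩ := mem_iUnion.1 hu
    obtain ⟨l, hl⟩ := mem_iUnion.1 hw
    exact (s (max k l)).2.2.2.2.2 ⟨hmonoA (le_max_left k l) hk, hmonoB (le_max_right k l) hl⟩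

end General

section Vector

variable {E : Type u} [AddCommGroup E] [Module ℝ E] [TopologicalSpace E]
  [IsTopologicalAddGroup E] [ContinuousSMul ℝ E] [T2Space E]

/-- the weak topology of an exhaustion of a Hausdorff topological vector space by compact sets is a
vector topology -/
theorem kt_vector {C : ℕ → Set E} (hC : ∀ n, IsCompact (C n)) (hCm : Monotone C)
    (hcov : ∀ v, ∃ n, v ∈ C n) (hadd : ∀ n, ∃ m, C n + C n ⊆ C m)
    (hsmul : ∀ n : ℕ, ∃ m, ∀ t ∈ Icc (-(n : ℝ)) n, ∀ v ∈ C n, t • v ∈ C m) :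
    @IsTopologicalAddGroup E (kt C) _ ∧ @ContinuousSMul ℝ E _ _ (kt C) := by
  have h1 : @ContinuousAdd E (kt C) _ := by
    refine @ContinuousAdd.mk E (kt C) _ ?_
    rw [@continuous_def _ _ (@instTopologicalSpaceProd E E (kt C) (kt C)) (kt C)]
    intro W' hW'
    rw [@isOpen_prod_iff _ _ (kt C) (kt C)]
    intro x y hxy
    obtain ⟨U, U', hU, hU', hxU, hyU', hsub⟩ := exists_box (C := C) (D := C) hC hC
      (fun n => (hC n).isClosed) (fun n => (hC n).isClosed) hCm hCm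
      (W := (fun p : E × E => p.1 + p.2) ⁻¹' W') (by
        intro n
        obtain ⟨m, hm⟩ := hadd n
        obtain ⟨O, hO, hOW⟩ := hW' m
        refine ⟨(fun p : E × E => p.1 + p.2) ⁻¹' O, hO.preimage continuous_add, ?_⟩
        ext ⟨v, w⟩
        simp only [mem_inter_iff, mem_preimage, mem_prod]
        refine and_congr_left fun hvw => ?_
        have h2 : v + w ∈ C m := hm (add_mem_add hvw.1 hvw.2)
        constructor
        · intro h
          have : v + w ∈ O ∩ C m := ⟨h, h2⟩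
          rw [hOW] at this
          exact this.1
        · intro h
          have : v + w ∈ W' ∩ C m := ⟨h, h2⟩
          rw [← hOW] at this
          exact this.1) hxy (hcov x) (hcov y)
    exact ⟨U, U', hU, hU', hxU, hyU', hsub⟩
  have h2 : @ContinuousSMul ℝ E _ _ (kt C) := by
    refine @ContinuousSMul.mk ℝ E _ _ (kt C) ?_
    rw [@continuous_def _ _ (@instTopologicalSpaceProd ℝ E _ (kt C)) (kt C)]
    intro W' hW'
    rw [@isOpen_prod_iff _ _ _ (kt C)]
    intro x y hxy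
    have hcovR : ∀ x : ℝ, ∃ n : ℕ, |x| < n := fun x => exists_nat_gt _
    let D : ℕ → Set ℝ := fun n => Icc (-(n : ℝ)) n
    have hDm : Monotone D := by
      intro n m hnm t ht
      have : (n : ℝ) ≤ m := by exact_mod_cast hnm
      exact ⟨by linarith [ht.1], by linarith [ht.2]⟩
    obtain ⟨U, U', hU, hU', hxU, hyU', hsub⟩ := exists_box (C := D) (D := C)
      (fun n => isCompact_Icc) hC (fun n => isClosed_Icc) (fun n => (hC n).isClosed) hDm hCm
      (W := (fun p : ℝ × E => p.1 • p.2) ⁻¹' W') (by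
        intro n
        obtain ⟨m, hm⟩ := hsmul n
        obtain ⟨O, hO, hOW⟩ := hW' m
        refine ⟨(fun p : ℝ × E => p.1 • p.2) ⁻¹' O, hO.preimage continuous_smul, ?_⟩
        ext ⟨t, w⟩
        simp only [mem_inter_iff, mem_preimage, mem_prod]
        refine and_congr_left fun hvw => ?_
        have h2 : t • w ∈ C m := hm t hvw.1 w hvw.2
        constructor
        · intro h
          have : t • w ∈ O ∩ C m := ⟨h, h2⟩
          rw [hOW] at this
          exact this.1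
        · intro h
          have : t • w ∈ W' ∩ C m := ⟨h, h2⟩
          rw [← hOW] at this
          exact this.1) hxy
      (by
        obtain ⟨n, hn⟩ := hcovR x
        exact ⟨n, (abs_le.1 hn.le).1, (abs_le.1 hn.le).2⟩) (hcov y)
    refine ⟨U, U', ?_, hU', hxU, hyU', hsub⟩
    rw [isOpen_iff_mem_nhds]
    intro t ht
    obtain ⟨n, hn⟩ := hcovR t
    obtain ⟨O, hO, hOU⟩ := hU n
    have h3 : Ioo (-(n : ℝ)) n ∈ 𝓝 t := isOpen_Ioo.mem_nhds (abs_lt.1 hn)
    have h4 : t ∈ O := by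
      have : t ∈ U ∩ D n := ⟨ht, (abs_lt.1 hn).1.le, (abs_lt.1 hn).2.le⟩
      rw [← hOU] at this
      exact this.1
    refine Filter.mem_of_superset (inter_mem (hO.mem_nhds h4) h3) fun z hz => ?_
    have : z ∈ O ∩ D n := ⟨hz.1, hz.2.1.le, hz.2.2.le⟩
    rw [hOU] at this
    exact this.1
  refine ⟨?_, h2⟩
  have h3 : @ContinuousNeg E (kt C) _ := by
    refine @ContinuousNeg.mk E (kt C) _ ?_
    have h4 : (fun v : E => -v) = fun v => (-1 : ℝ) • v := by
      funext v; simp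
    rw [h4]
    letI := kt C
    exact continuous_const_smul (-1 : ℝ)
  exact @IsTopologicalAddGroup.mk E (kt C) _ h1 h3

end Vector

end Pool.Agent.V11281.FTVS
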