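import Pool.Agent.V11281.FTVS.KOmega

/-!
# The free topological vector space over a locally compact separable metrizable space
-/

set_option autoImplicit false

open Set Topology Filter Pointwise

namespace Pool.Agent.V11281.FTVS

universe u v

/-- `k`-spaces: a set is closed if its trace on each compact subset `K` is closed in `K` -/
def IsKSpace (Z : Type u) [TopologicalSpace Z] : Prop :=
  ∀ A : Set Z, (∀ K : Set Z, IsCompact K → IsClosed (Subtype.val ⁻¹' A : Set K)) → IsClosed A

section Exhaustion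

variable {X : Type u} [TopologicalSpace X] (K : ℕ → Set X)

/-- the multiples of points -/
def Tn (n : ℕ) : Set (V X) :=
  insert 0 ((fun p : ℝ × X => p.1 • ι p.2) '' (Icc (-(n : ℝ)) n ×ˢ K n))

/-- sums of `k` elements of `Tn K n` -/
def Pw (n : ℕ) : ℕ → Set (V X)
  | 0 => {0}
  | (k + 1) => Pw n k + Tn K n

variable {K}

lemma Tn_compact (hK : ∀ n, IsCompact (K n)) (n : ℕ) : IsCompact (Tn K n) := by
  refine IsCompact.insert ?_ _
  refine (isCompact_Icc.prod (hK n)).image ?_
  exact continuous_fst.smul (continuous_ι.comp continuous_snd)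

lemma zero_mem_Tn (n : ℕ) : (0 : V X) ∈ Tn K n := mem_insert _ _

lemma Tn_mono (hK : Monotone K) : Monotone (Tn K) := by
  intro n m hnm
  have h : (n : ℝ) ≤ m := by exact_mod_cast hnm
  exact insert_subset_insert (image_mono (prod_mono (Icc_subset_Icc (by linarith) h) (hK hnm)))

lemma Pw_compact (hK : ∀ n, IsCompact (K n)) (n k : ℕ) : IsCompact (Pw K n k) := by
  induction k with
  | zero => exact isCompact_singleton
  | succ k ih => exact ih.add (Tn_compact hK n)

lemma Pw_succ (n k : ℕ) : Pw K n (k + 1) = Pw K n k + Tn K n := rfl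

lemma Pw_mono_right (n : ℕ) : Monotone (Pw K n) := by
  refine monotone_nat_of_le_succ fun k => ?_
  rw [Pw_succ]
  intro v hv
  exact ⟨v, hv, 0, zero_mem_Tn n, add_zero v⟩

lemma Pw_mono_left (hK : Monotone K) {n m : ℕ} (h : n ≤ m) (k : ℕ) : Pw K n k ⊆ Pw K m k := by
  induction k with
  | zero => exact subset_rfl
  | succ k ih => exact add_subset_add ih (Tn_mono hK h)

lemma Pw_add (n k l : ℕ) : Pw K n k + Pw K n l ⊆ Pw K n (k + l) := by
  induction l with
  | zero =>
    change Pw K n k + {0} ⊆ _
    rw [singleton_zero, add_zero]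
    rfl
  | succ l ih =>
    rw [Pw_succ, ← add_assoc, ← add_assoc, Pw_succ]
    exact add_subset_add_right ih

lemma Pw_smul (hK : Monotone K) {n : ℕ} {t : ℝ} (ht : t ∈ Icc (-(n : ℝ)) n) (k : ℕ) {v : V X}
    (hv : v ∈ Pw K n k) : t • v ∈ Pw K (n * n) k := by
  induction k generalizing v with
  | zero =>
    rw [show v = 0 from hv, smul_zero]
    exact rfl
  | succ k ih =>
    obtain ⟨w, hw, z, hz, rfl⟩ := hv
    change t • (w + z) ∈ _
    rw [smul_add]
    refine ⟨t • w, ih hw, t • z, ?_, rfl⟩
    rcases hz with rfl | ⟨⟨l, x⟩, ⟨hl, hx⟩, rfl⟩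
    · rw [smul_zero]; exact zero_mem_Tn _
    · refine Or.inr ⟨(t * l, x), ⟨?_, hK (Nat.le_mul_self n) hx⟩, ?_⟩
      · have h1 : |t| ≤ n := abs_le.2 ht
        have h2 : |l| ≤ n := abs_le.2 hl
        have h3 : |t * l| ≤ (n : ℝ) * n := by
          rw [abs_mul]
          exact mul_le_mul h1 h2 (abs_nonneg _) (Nat.cast_nonneg _)
        push_cast
        exact abs_le.1 h3
      · change (t * l) • ι x = t • l • ι x
        rw [mul_smul]

/-- the exhaustion -/
def Cn (K : ℕ → Set X) (n : ℕ) : Set (V X) := Pw K n n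

lemma Cn_compact (hK : ∀ n, IsCompact (K n)) (n : ℕ) : IsCompact (Cn K n) := Pw_compact hK n n

lemma Cn_mono (hK : Monotone K) : Monotone (Cn K) := fun n m h =>
  (Pw_mono_left hK h n).trans (Pw_mono_right m h)

lemma Cn_cover (hK : Monotone K) (hcov : ∀ x, ∃ n, x ∈ K n) (v : V X) : ∃ n, v ∈ Cn K n := by
  induction v using V_induction with
  | h0 => exact ⟨0, rfl⟩
  | hadd x a v ih =>
    obtain ⟨n, hn⟩ := ih
    obtain ⟨m, hm⟩ := hcov x
    obtain ⟨l, hl⟩ := exists_nat_gt |a|
    set N := n + m + l + 1 with hN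
    refine ⟨N, ?_⟩
    have h1 : v ∈ Pw K N (n + m + l) :=
      Pw_mono_right N (show n ≤ n + m + l by omega)
        (Pw_mono_left hK (show n ≤ N by omega) n hn)
    have h2 : a • ι x ∈ Tn K N := by
      refine Or.inr ⟨(a, x), ⟨?_, hK (show m ≤ N by omega) hm⟩, rfl⟩
      have h3 : (l : ℝ) ≤ N := by
        have : l ≤ N := by omega
        exact_mod_cast this
      have h4 := abs_le.1 (hl.le.trans h3)
      exact h4
    have h3 : v + a • ι x ∈ Pw K N (n + m + l + 1) := ⟨v, h1, _, h2, rfl⟩
    rw [add_comm]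
    exact h3

lemma ι_mem_Cn {n : ℕ} (hn : 1 ≤ n) {x : X} (hx : x ∈ K n) : ι x ∈ Cn K n := by
  apply Pw_mono_right n hn
  refine ⟨0, rfl, ι x, Or.inr ⟨(1, x), ⟨?_, hx⟩, one_smul _ _⟩, zero_add _⟩
  have : (1 : ℝ) ≤ n := by exact_mod_cast hn
  constructor <;> linarith

/-- the support of a vector -/
noncomputable def supp (v : V X) : Finset X := Finsupp.support (show X →₀ ℝ from v)

lemma Pw_supp {n k : ℕ} {v : V X} (hv : v ∈ Pw K n k) : ∀ x ∈ supp v, x ∈ K n := by
  classical
  induction k generalizing v with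
  | zero =>
    rw [show v = 0 from hv]
    intro x hx
    exact absurd hx (by unfold supp; change x ∉ Finsupp.support (0 : X →₀ ℝ); simp)
  | succ k ih =>
    obtain ⟨w, hw, z, hz, rfl⟩ := hv
    intro x hx
    have h1 : x ∈ supp w ∪ supp z := by
      have := Finsupp.support_add (g₁ := (show X →₀ ℝ from w)) (g₂ := (show X →₀ ℝ from z)) hx
      exact this
    rcases Finset.mem_union.1 h1 with h | h
    · exact ih hw x h
    · rcases hz with rfl | ⟨⟨l, y⟩, ⟨_, hy⟩, rfl⟩
      · exact absurd h (by unfold supp; change x ∉ Finsupp.support (0 : X →₀ ℝ); simp)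
      · have h2 : x ∈ Finsupp.support (l • (Finsupp.single y (1 : ℝ) : X →₀ ℝ)) := h
        rw [Finsupp.smul_single, Finsupp.mem_support_iff] at h2
        have : x = y := by
          by_contra hne
          exact h2 (Finsupp.single_eq_of_ne hne)
        rw [this]
        exact hy

/-- over a space with a suitable exhaustion the topology of `V X` is the weak one -/
theorem isOpen_of_kOpen [T2Space (V X)] (hK : ∀ n, IsCompact (K n)) (hKm : Monotone K)
    (hcov : ∀ x, ∃ n, K n ∈ 𝓝 x) {U : Set (V X)} (hU : KOpen (Cn K) U) : IsOpen U := by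
  have hcov' : ∀ x, ∃ n, x ∈ K n := fun x => by
    obtain ⟨n, hn⟩ := hcov x
    exact ⟨n, mem_of_mem_nhds hn⟩
  obtain ⟨h1, h2⟩ := kt_vector (E := V X) (C := Cn K) (Cn_compact hK) (Cn_mono hKm)
    (Cn_cover hKm hcov') (fun n => ⟨n + n, by
      refine (Pw_add n n n).trans ?_
      exact Pw_mono_left hKm (Nat.le_add_left n n) _⟩)
    (fun n => ⟨n * n, fun t ht v hv => by
      have := Pw_smul hKm ht n hv
      exact Pw_mono_right _ (Nat.le_mul_self n) this⟩)
  have h3 : @Continuous X (V X) _ (kt (Cn K)) ι := by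
    rw [@continuous_def _ _ _ (kt (Cn K))]
    intro W hW
    rw [isOpen_iff_mem_nhds]
    intro x hx
    obtain ⟨n, hn⟩ := hcov x
    have hn' : K (n + 1) ∈ 𝓝 x := Filter.mem_of_superset hn (hKm (Nat.le_succ n))
    obtain ⟨O, hO, hOW⟩ := hW (n + 1)
    have h4 : ∀ y ∈ K (n + 1), (ι y ∈ O ↔ ι y ∈ W) := by
      intro y hy
      have h5 : ι y ∈ Cn K (n + 1) := ι_mem_Cn (by omega) hy
      constructor
      · intro h
        have : ι y ∈ O ∩ Cn K (n + 1) := ⟨h, h5⟩
        rw [hOW] at this
        exact this.1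
      · intro h
        have : ι y ∈ W ∩ Cn K (n + 1) := ⟨h, h5⟩
        rw [← hOW] at this
        exact this.1
    have h6 : ι ⁻¹' O ∈ 𝓝 x :=
      (hO.preimage continuous_ι).mem_nhds ((h4 x (mem_of_mem_nhds hn')).2 hx)
    exact Filter.mem_of_superset (inter_mem h6 hn') fun y hy => (h4 y hy.2).1 hy.1
  have h4 : (sInf (Adm X) : TopologicalSpace (V X)) ≤ kt (Cn K) := sInf_le ⟨h1, h2, h3⟩
  exact h4 U hU

lemma isClosed_of_inter_Cn [T2Space (V X)] (hK : ∀ n, IsCompact (K n)) (hKm : Monotone K)
    (hcov : ∀ x, ∃ n, K n ∈ 𝓝 x) {A : Set (V X)} (hA : ∀ n, IsClosed (A ∩ Cn K n)) :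
    IsClosed A := by
  rw [← isOpen_compl_iff]
  apply isOpen_of_kOpen hK hKm hcov
  intro n
  refine ⟨(A ∩ Cn K n)ᶜ, (hA n).isOpen_compl, ?_⟩
  ext v
  simp only [mem_inter_iff, mem_compl_iff, not_and]
  tauto

/-- the traces of the levels on the members of the exhaustion are compact -/
lemma isCompact_sp_inter [T2Space (V X)] (hK : ∀ n, IsCompact (K n)) (n m : ℕ) :
    IsCompact (sp X n ∩ Cn K m) := by
  classical
  by_cases hne : (K m).Nonempty
  · obtain ⟨p, hp⟩ := hne
    let Q : Set (V X) := (fun q : (Fin n → ℝ) × (Fin n → X) => ∑ i, q.1 i • ι (q.2 i)) ''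
      ((Set.pi univ fun _ => Icc (-(n : ℝ)) n) ×ˢ (Set.pi univ fun _ => K m))
    have hQ : IsCompact Q := by
      refine ((isCompact_univ_pi fun _ => isCompact_Icc).prod
        (isCompact_univ_pi fun _ => hK m)).image ?_
      refine continuous_finset_sum _ fun i _ => ?_
      exact ((continuous_apply i).comp continuous_fst).smul
        (continuous_ι.comp ((continuous_apply i).comp continuous_snd))
    have heq : sp X n ∩ Cn K m = Q ∩ Cn K m := by
      ext v
      simp only [mem_inter_iff]
      refine and_congr_left fun hv => ?_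
      constructor
      · rintro ⟨l, x, hl, rfl⟩
        let r : X → X := fun y => if y ∈ K m then y else p
        refine ⟨(l, fun i => r (x i)), ⟨fun i _ => hl i, fun i _ => ?_⟩, ?_⟩
        · change r (x i) ∈ K m
          simp only [r]
          split_ifs with h
          · exact h
          · exact hp
        · -- the map induced by `r` fixes the vector
          set w : V X := ∑ i, l i • ι (x i) with hw
          have h1 : Finsupp.mapDomain r (show X →₀ ℝ from w) = (show X →₀ ℝ from w) := by
            have h2 : Finsupp.mapDomain r (show X →₀ ℝ from w) =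
                Finsupp.mapDomain id (show X →₀ ℝ from w) := by
              refine Finsupp.mapDomain_congr fun y hy => ?_
              have : y ∈ K m := Pw_supp hv y hy
              simp only [r, if_pos this, id]
            rw [h2, Finsupp.mapDomain_id]
          have h3 : (Finsupp.lmapDomain ℝ ℝ r : (X →₀ ℝ) →ₗ[ℝ] (X →₀ ℝ))
              (show X →₀ ℝ from w) = ∑ i, l i • ι (r (x i)) := by
            rw [hw]
            change (Finsupp.lmapDomain ℝ ℝ r : (X →₀ ℝ) →ₗ[ℝ] (X →₀ ℝ))
              (∑ i, l i • (Finsupp.single (x i) (1 : ℝ) : X →₀ ℝ)) = _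
            rw [map_sum]
            refine Finset.sum_congr rfl fun i _ => ?_
            rw [map_smul, Finsupp.lmapDomain_apply, Finsupp.mapDomain_single]
            rfl
          exact h3.symm.trans h1
      · rintro ⟨⟨l, x⟩, ⟨hl, _⟩, rfl⟩
        exact ⟨l, x, fun i => hl i (mem_univ _), rfl⟩
    rw [heq]
    exact hQ.inter_right (Cn_compact hK m).isClosed
  · rw [not_nonempty_iff_eq_empty] at hne
    have hz : sp X n ∩ Cn K m ⊆ {0} := by
      rintro v ⟨_, hv⟩
      have h1 := Pw_supp hv
      rw [hne] at h1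
      have h2 : supp v = ∅ := Finset.eq_empty_of_forall_notMem fun x hx => h1 x hx
      exact Finsupp.support_eq_empty.1 h2
    exact ((finite_singleton _).subset hz).isCompact

theorem isKSpace_sp [T2Space (V X)] (hK : ∀ n, IsCompact (K n)) (hKm : Monotone K)
    (hcov : ∀ x, ∃ n, K n ∈ 𝓝 x) (n : ℕ) : IsKSpace (sp X n) := by
  intro A hA
  have h1 : IsClosed (Subtype.val '' A : Set (V X)) := by
    apply isClosed_of_inter_Cn hK hKm hcov
    intro m
    have hQ := isCompact_sp_inter (X := X) hK n m
    set Q : Set (sp X n) := Subtype.val ⁻¹' (Cn K m) with hQdef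
    have hQc : IsCompact Q := by
      rw [Subtype.isCompact_iff, hQdef, Subtype.image_preimage_coe]
      exact hQ
    have h2 := hA Q hQc
    have h3 : IsCompact (A ∩ Q) := by
      have : CompactSpace Q := isCompact_iff_compactSpace.1 hQc
      have h4 := h2.isCompact.image (continuous_subtype_val (p := fun x => x ∈ Q))
      rw [Subtype.image_preimage_coe, inter_comm] at h4
      exact h4
    have h5 : Subtype.val '' A ∩ Cn K m = Subtype.val '' (A ∩ Q) := by
      rw [hQdef, image_inter_preimage]
    rw [h5]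
    exact (h3.image continuous_subtype_val).isClosed
  have h2 := h1.preimage (continuous_subtype_val (p := fun x => x ∈ sp X n))
  rwa [preimage_image_eq _ Subtype.val_injective] at h2

end Exhaustion

/-- the levels over a locally compact separable metrizable space are `k`-spaces -/
theorem isKSpace_sp_of_locallyCompact {X : Type u} [TopologicalSpace X]
    [TopologicalSpace.MetrizableSpace X] [WeaklyLocallyCompactSpace X] [SigmaCompactSpace X]
    (n : ℕ) : IsKSpace (sp X n) := by
  let K := CompactExhaustion.choice X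
  refine isKSpace_sp (K := K) K.isCompact (monotone_nat_of_le_succ fun n =>
    K.subset_succ n) (fun x => ?_) n
  obtain ⟨n, hn⟩ := K.exists_mem_nhds x
  exact ⟨n, hn⟩

end Pool.Agent.V11281.FTVS
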