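import Pool.Agent.V11281.FTVS.Basic

/-!
# Nonseparable metrizable spaces
-/

set_option autoImplicit false

open Set Topology Filter

namespace Pool.Agent.V11281.FTVS

universe u v

variable {X : Type u} [TopologicalSpace X]

/-- a nonseparable metrizable space contains an uncountable set all of whose subsets are closed -/
lemma exists_uncountable_CD [TopologicalSpace.MetrizableSpace X]
    (hX : ¬ TopologicalSpace.SeparableSpace X) : ∃ S : Set X, ¬ S.Countable ∧ CD S := by
  letI : MetricSpace X := TopologicalSpace.metrizableSpaceMetric X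
  -- maximal separated sets
  have key : ∀ n : ℕ, ∃ S : Set X, (S.Pairwise fun x y => 1 / ((n : ℝ) + 1) ≤ dist x y) ∧
      ∀ x, ∃ y ∈ S, dist x y < 1 / ((n : ℝ) + 1) := by
    intro n
    obtain ⟨S, hS⟩ := zorn_subset {S : Set X | S.Pairwise fun x y => 1 / ((n : ℝ) + 1) ≤ dist x y}
      (by
        intro c hc hchain
        refine ⟨⋃₀ c, ?_, fun s hs => subset_sUnion_of_mem hs⟩
        rintro x ⟨s, hs, hxs⟩ y ⟨t, ht, hyt⟩ hxy
        rcases hchain.total hs ht with h | h
        · exact hc ht (h hxs) hyt hxy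
        · exact hc hs hxs (h hyt) hxy)
    have hp : (0 : ℝ) < 1 / ((n : ℝ) + 1) := by positivity
    refine ⟨S, hS.prop, fun x => ?_⟩
    by_contra hcon
    push Not at hcon
    have hxS : x ∉ S := fun hx => by
      have := hcon x hx
      rw [dist_self] at this
      linarith
    have hins : insert x S ∈ {S : Set X | S.Pairwise fun x y => 1 / ((n : ℝ) + 1) ≤ dist x y} := by
      refine hS.prop.insert_of_notMem hxS fun y hy => ⟨hcon y hy, ?_⟩
      rw [dist_comm]
      exact hcon y hy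
    have := hS.le_of_ge hins (subset_insert x S)
    exact hxS (this (mem_insert x S))
  choose S hS1 hS2 using key
  have : ∃ n, ¬ (S n).Countable := by
    by_contra hcon
    push Not at hcon
    apply hX
    refine ⟨⋃ n, S n, countable_iUnion hcon, ?_⟩
    intro x
    rw [Metric.mem_closure_iff]
    intro ε hε
    obtain ⟨n, hn⟩ := exists_nat_one_div_lt hε
    obtain ⟨y, hy, hxy⟩ := hS2 n x
    exact ⟨y, mem_iUnion.2 ⟨n, hy⟩, hxy.trans hn⟩
  obtain ⟨n, hn⟩ := this
  refine ⟨S n, hn, fun T hT => ?_⟩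
  have hp : (0 : ℝ) < 1 / ((n : ℝ) + 1) := by positivity
  refine isClosed_of_closure_subset fun x hx => ?_
  rw [Metric.mem_closure_iff] at hx
  obtain ⟨y, hy, hxy⟩ := hx _ (half_pos hp)
  by_cases hxy' : x = y
  · rw [hxy']; exact hy
  · obtain ⟨z, hz, hxz⟩ := hx (min (1 / ((n : ℝ) + 1) / 2) (dist x y))
      (lt_min (half_pos hp) (dist_pos.2 hxy'))
    have hyz : y ≠ z := by
      rintro rfl
      exact absurd (hxz.trans_le (min_le_right _ _)) (lt_irrefl _)
    have h1 := hS1 n (hT hy) (hT hz) hyz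
    have h2 := dist_triangle y x z
    have h3 := hxz.trans_le (min_le_left _ _)
    rw [dist_comm y x] at h2
    linarith

/-- an uncountable set has an uncountable subset which injects into the Cantor set -/
lemma exists_code {S : Set X} (hS : ¬ S.Countable) :
    ∃ T ⊆ S, ¬ T.Countable ∧ ∃ φ : X → (ℕ → Bool), InjOn φ T := by
  have h1 : Cardinal.aleph 1 ≤ Cardinal.mk S := by
    rw [← Cardinal.succ_aleph0, Order.succ_le_iff]
    by_contra hcon
    push Not at hcon
    exact hS (Cardinal.le_aleph0_iff_set_countable.1 hcon)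
  obtain ⟨T, hTS, hT⟩ := Cardinal.le_mk_iff_exists_subset.1 h1
  refine ⟨T, hTS, fun h => ?_, ?_⟩
  · have := Cardinal.le_aleph0_iff_set_countable.2 h
    rw [hT] at this
    exact absurd this (not_le.2 Cardinal.aleph0_lt_aleph_one)
  · have h2 : Cardinal.lift.{0} (Cardinal.mk T) ≤ Cardinal.lift.{u} (Cardinal.mk (ℕ → Bool)) := by
      rw [hT]
      have : Cardinal.mk (ℕ → Bool) = Cardinal.continuum := by
        rw [← Cardinal.two_power_aleph0]; simp only [Cardinal.mk_pi, Cardinal.mk_bool,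
          Cardinal.prod_const, Cardinal.mk_nat, Cardinal.lift_aleph0, Cardinal.lift_ofNat]
      rw [this, Cardinal.lift_continuum, Cardinal.lift_uzero]
      exact Cardinal.aleph_one_le_continuum
    obtain ⟨e⟩ := Cardinal.lift_mk_le'.1 h2
    classical
    refine ⟨fun x => if h : x ∈ T then e ⟨x, h⟩ else fun _ => false, fun x hx y hy hxy => ?_⟩
    simp only [dif_pos hx, dif_pos hy] at hxy
    exact congrArg Subtype.val (e.injective hxy)

/-- the first difference plus one -/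
noncomputable def dl (φ : X → (ℕ → Bool)) (x y : X) : ℕ := PiNat.firstDiff (φ x) (φ y) + 1

/-- the points of the test set -/
noncomputable def pt (φ : X → (ℕ → Bool)) (x y : X) : V X :=
  (1 / (dl φ x y : ℝ)) • (ι x + ι y)

/-- the test set -/
def tset (φ : X → (ℕ → Bool)) (T : Set X) : Set (V X) :=
  {v | ∃ x ∈ T, ∃ y ∈ T, x ≠ y ∧ v = pt φ x y}

lemma dl_pos (φ : X → (ℕ → Bool)) (x y : X) : (1 : ℝ) ≤ dl φ x y := by
  unfold dl
  push_cast
  have : (0 : ℝ) ≤ PiNat.firstDiff (φ x) (φ y) := Nat.cast_nonneg _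
  linarith

lemma tset_subset_sp (φ : X → (ℕ → Bool)) (T : Set X) {n : ℕ} (hn : 2 ≤ n) :
    tset φ T ⊆ sp X n := by
  rintro v ⟨x, -, y, -, -, rfl⟩
  have hn' : (2 : ℝ) ≤ n := by exact_mod_cast hn
  have hd := dl_pos φ x y
  have h1 : 1 / (dl φ x y : ℝ) ≤ 1 := by
    rw [div_le_one (by linarith)]; exact hd
  have h0 : 0 ≤ 1 / (dl φ x y : ℝ) := by positivity
  obtain ⟨m, rfl⟩ : ∃ m, n = m + 2 := ⟨n - 2, by omega⟩
  refine ⟨Fin.cons (1 / (dl φ x y : ℝ)) (Fin.cons (1 / (dl φ x y : ℝ)) fun _ => 0),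
    Fin.cons x (Fin.cons y fun _ => x), ?_, ?_⟩
  · intro i
    refine Fin.cases ?_ (fun i => Fin.cases ?_ (fun i => ?_) i) i
    · simp only [Fin.cons_zero, mem_Icc]
      constructor <;> linarith
    · simp only [Fin.cons_succ, Fin.cons_zero, mem_Icc]
      constructor <;> linarith
    · simp only [Fin.cons_succ, mem_Icc]
      constructor <;> linarith
  · rw [Fin.sum_univ_succ, Fin.sum_univ_succ]
    simp only [Fin.cons_zero, Fin.cons_succ, zero_smul, Finset.sum_const_zero, add_zero]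
    unfold pt
    rw [smul_add]

/-- zero is in the closure of the test set -/
lemma zero_mem_closure {φ : X → (ℕ → Bool)} {T : Set X} (hT : ¬ T.Countable) (hφ : InjOn φ T) :
    (0 : V X) ∈ closure (tset φ T) := by
  rw [mem_closure_iff_nhds]
  intro U hU
  have hadd : Tendsto (fun p : V X × V X => p.1 + p.2) (𝓝 (0, 0)) (𝓝 0) := by
    have := (continuous_add (M := V X)).tendsto ((0 : V X), (0 : V X))
    simpa using this
  have h1 := hadd hU
  rw [nhds_prod_eq] at h1
  obtain ⟨U1, hU1, U2, hU2, hU12⟩ := Filter.mem_prod_iff.1 h1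
  set W := U1 ∩ U2 with hW
  have hWn : W ∈ 𝓝 (0 : V X) := inter_mem hU1 hU2
  have hWW : ∀ v ∈ W, ∀ w ∈ W, v + w ∈ U := fun v hv w hw => hU12 (mk_mem_prod hv.1 hw.2)
  -- a bound for each point
  have hb : ∀ x : X, ∃ N : ℕ, ∀ m : ℕ, N ≤ m → (1 / ((m : ℝ) + 1)) • ι x ∈ W := by
    intro x
    have h2 : Tendsto (fun m : ℕ => (1 / ((m : ℝ) + 1)) • ι x) atTop (𝓝 ((0 : ℝ) • ι x)) :=
      tendsto_one_div_add_atTop_nhds_zero_nat.smul_const _
    rw [zero_smul] at h2
    exact eventually_atTop.1 (h2 hWn)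
  choose N hN using hb
  obtain ⟨n, hn⟩ : ∃ n, {x ∈ T | N x ≤ n}.Infinite := by
    by_contra hcon
    push Not at hcon
    apply hT
    refine (countable_iUnion fun n => (hcon n).countable).mono fun x hx => ?_
    exact mem_iUnion.2 ⟨N x, hx, le_rfl⟩
  -- two points with the same beginning
  obtain ⟨x, hx, y, hy, hxy, heq⟩ : ∃ x ∈ {x ∈ T | N x ≤ n}, ∃ y ∈ {x ∈ T | N x ≤ n}, x ≠ y ∧
      (fun i : Fin n => φ x i) = fun i : Fin n => φ y i := by
    have := hn.exists_ne_map_eq_of_mapsTo (f := fun x => (fun i : Fin n => φ x i))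
      (mapsTo_univ _ _) finite_univ
    exact this
  have hφne : φ x ≠ φ y := fun h => hxy (hφ hx.1 hy.1 h)
  have hfd : n ≤ PiNat.firstDiff (φ x) (φ y) := by
    by_contra hcon
    push Not at hcon
    exact PiNat.apply_firstDiff_ne hφne (congrFun heq ⟨_, hcon⟩)
  refine ⟨pt φ x y, ?_, x, hx.1, y, hy.1, hxy, rfl⟩
  unfold pt dl
  rw [smul_add]
  push_cast
  exact hWW _ (hN x _ (hx.2.trans hfd)) _ (hN y _ (hy.2.trans hfd))

/-- functionals which are large on countable subsets of the test set -/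
lemma exists_functional [NormalSpace X] {φ : X → (ℕ → Bool)} {T : Set X} (hT : CD T)
    {E : Set X} (hE : E.Countable) (hET : E ⊆ T) :
    ∃ (e : X → ℕ) (g : V X → ℝ), InjOn e E ∧ Continuous g ∧ g 0 = 0 ∧
      ∀ x ∈ E, ∀ y ∈ E, x ≠ y → (e x : ℝ) + 1 ≤ g (pt φ x y) := by
  classical
  obtain ⟨e, he⟩ := countable_iff_exists_injOn.1 hE
  -- the values
  have hfin : ∀ x : X, {y ∈ E | e y ≤ e x}.Finite := fun x =>
    Set.Finite.of_finite_image ((finite_Iic (e x)).subset (by
      rintro _ ⟨y, hy, rfl⟩; exact hy.2)) (he.mono fun y hy => hy.1)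
  let c : X → ℝ := fun x => ∑ y ∈ (hfin x).toFinset, (dl φ x y : ℝ) * (e x + 1)
    + ∑ y ∈ (hfin x).toFinset, (dl φ y x : ℝ) * (e x + 1)
  have hc0 : ∀ x, 0 ≤ c x := fun x => by positivity
  obtain ⟨f, hf, hfT⟩ := hT.exists_extension c
  refine ⟨e, lift f, he, continuous_lift hf, map_zero _, ?_⟩
  have key : ∀ x ∈ E, ∀ y ∈ E, x ≠ y → e y ≤ e x →
      (dl φ x y : ℝ) * (e x + 1) ≤ c x ∧ (dl φ y x : ℝ) * (e x + 1) ≤ c x := by
    intro x _ y hy _ hyx
    have hmem : y ∈ (hfin x).toFinset := by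
      rw [Set.Finite.mem_toFinset]; exact ⟨hy, hyx⟩
    have h1 : (dl φ x y : ℝ) * (e x + 1) ≤ ∑ y ∈ (hfin x).toFinset, (dl φ x y : ℝ) * (e x + 1) :=
      Finset.single_le_sum (f := fun y => (dl φ x y : ℝ) * (e x + 1)) (fun z _ => by positivity)
        hmem
    have h2 : (dl φ y x : ℝ) * (e x + 1) ≤ ∑ y ∈ (hfin x).toFinset, (dl φ y x : ℝ) * (e x + 1) :=
      Finset.single_le_sum (f := fun y => (dl φ y x : ℝ) * (e x + 1)) (fun z _ => by positivity)
        hmem
    have h3 : 0 ≤ ∑ y ∈ (hfin x).toFinset, (dl φ x y : ℝ) * (e x + 1) := by positivity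
    have h4 : 0 ≤ ∑ y ∈ (hfin x).toFinset, (dl φ y x : ℝ) * (e x + 1) := by positivity
    constructor <;> simp only [c] <;> linarith
  intro x hx y hy hxy
  have hd := dl_pos φ x y
  have hval : lift f (pt φ x y) = (c x + c y) / dl φ x y := by
    unfold pt
    rw [map_smul, map_add, lift_ι, lift_ι, hfT x (hET hx), hfT y (hET hy), smul_eq_mul]
    ring
  rw [hval, le_div_iff₀ (by linarith)]
  have hx0 := hc0 x
  have hy0 := hc0 y
  rcases le_total (e y) (e x) with h | h
  · have := (key x hx y hy hxy h).1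
    nlinarith
  · have h1 := (key y hy x hx hxy.symm h).2
    have h2 : (e x : ℝ) ≤ e y := by exact_mod_cast h
    nlinarith

/-- zero is not in the closure of a countable subset of the test set -/
lemma zero_notMem_closure_countable [NormalSpace X] {φ : X → (ℕ → Bool)} {T : Set X} (hT : CD T)
    {B : Set (V X)} (hB : B ⊆ tset φ T) (hBc : B.Countable) : (0 : V X) ∉ closure B := by
  intro h0
  have hB' : ∀ v, v ∈ B → ∃ x y, x ∈ T ∧ y ∈ T ∧ x ≠ y ∧ v = pt φ x y := fun v hv => by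
    obtain ⟨x, hx, y, hy, hxy, rfl⟩ := hB hv
    exact ⟨x, y, hx, hy, hxy, rfl⟩
  have hne : Nonempty X := by
    rcases B.eq_empty_or_nonempty with rfl | ⟨v0, hv0⟩
    · rw [closure_empty] at h0; exact h0.elim
    · exact ⟨(hB' v0 hv0).choose⟩
  choose! a b ha hb hab hv using hB'
  set E : Set X := a '' B ∪ b '' B with hE
  have hEc : E.Countable := (hBc.image a).union (hBc.image b)
  have hET : E ⊆ T := by
    rintro x (⟨v, hv, rfl⟩ | ⟨v, hv, rfl⟩)
    · exact ha _ hv
    · exact hb _ hv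
  obtain ⟨e, g, -, hg, hg0, hlarge⟩ := exists_functional (φ := φ) hT hEc hET
  have h1 : g 0 ∈ closure (g '' B) := image_closure_subset_closure_image hg ⟨0, h0, rfl⟩
  have h2 : g '' B ⊆ Ici 1 := by
    rintro _ ⟨v, hvB, rfl⟩
    have h3 := hlarge (a v) (Or.inl ⟨v, hvB, rfl⟩) (b v) (Or.inr ⟨v, hvB, rfl⟩) (hab _ hvB)
    rw [← hv _ hvB] at h3
    have h4 : (0 : ℝ) ≤ e (a v) := Nat.cast_nonneg _
    rw [mem_Ici]
    linarith
  have h3 : g 0 ∈ Ici (1 : ℝ) := closure_minimal h2 isClosed_Ici h1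
  rw [hg0, mem_Ici] at h3
  linarith

/-- compact sets meet the test set in finite sets -/
lemma finite_inter_compact [NormalSpace X] {φ : X → (ℕ → Bool)} {T : Set X} (hT : CD T)
    {K : Set (V X)} (hK : IsCompact K) : (K ∩ tset φ T).Finite := by
  by_contra hinf
  have hinf : (K ∩ tset φ T).Infinite := hinf
  obtain ⟨B, hBK, hBinf, hBc⟩ : ∃ B ⊆ K ∩ tset φ T, B.Infinite ∧ B.Countable := by
    refine ⟨range fun n => (hinf.natEmbedding _ n : V X), ?_, ?_, countable_range _⟩
    · rintro _ ⟨n, rfl⟩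
      exact (hinf.natEmbedding _ n).2
    · exact infinite_range_of_injective
        (Subtype.val_injective.comp (hinf.natEmbedding _).injective)
  have hB' : ∀ v, v ∈ B → ∃ x y, x ∈ T ∧ y ∈ T ∧ x ≠ y ∧ v = pt φ x y := fun v hv => by
    obtain ⟨x, hx, y, hy, hxy, rfl⟩ := (hBK hv).2
    exact ⟨x, y, hx, hy, hxy, rfl⟩
  have hne : Nonempty X := by
    obtain ⟨v0, hv0⟩ := hBinf.nonempty
    exact ⟨(hB' v0 hv0).choose⟩
  choose! a b ha hb hab hv using hB'
  set E : Set X := a '' B ∪ b '' B with hE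
  have hEc : E.Countable := (hBc.image a).union (hBc.image b)
  have hET : E ⊆ T := by
    rintro x (⟨v, hv, rfl⟩ | ⟨v, hv, rfl⟩)
    · exact ha _ hv
    · exact hb _ hv
  obtain ⟨e, g, he, hg, -, hlarge⟩ := exists_functional (φ := φ) hT hEc hET
  obtain ⟨M, hM⟩ := (hK.image hg).bddAbove
  obtain ⟨m, hm⟩ := exists_nat_gt M
  -- both indices are bounded
  have hsym : ∀ x y, dl φ x y = dl φ y x := fun x y => by
    unfold dl; rw [PiNat.firstDiff_comm]
  have hptsym : ∀ x y, pt φ x y = pt φ y x := fun x y => by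
    unfold pt; rw [hsym x y, add_comm]
  have hbound : ∀ v ∈ B, e (a v) < m ∧ e (b v) < m := by
    intro v hvB
    have h1 := hlarge (a v) (Or.inl ⟨v, hvB, rfl⟩) (b v) (Or.inr ⟨v, hvB, rfl⟩) (hab _ hvB)
    have h2 := hlarge (b v) (Or.inr ⟨v, hvB, rfl⟩) (a v) (Or.inl ⟨v, hvB, rfl⟩) (hab _ hvB).symm
    rw [hptsym] at h2
    rw [← hv _ hvB] at h1 h2
    have h3 : g v ≤ M := hM ⟨v, (hBK hvB).1, rfl⟩
    constructor
    · have : (e (a v) : ℝ) < m := by linarith
      exact_mod_cast this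
    · have : (e (b v) : ℝ) < m := by linarith
      exact_mod_cast this
  apply hBinf
  refine Set.Finite.of_finite_image (f := fun v => (e (a v), e (b v)))
    (((finite_Iio m).prod (finite_Iio m)).subset ?_) ?_
  · rintro _ ⟨v, hvB, rfl⟩
    exact ⟨(hbound v hvB).1, (hbound v hvB).2⟩
  · intro v hvB w hwB hvw
    simp only [Prod.mk.injEq] at hvw
    have h1 : a v = a w := he (Or.inl ⟨v, hvB, rfl⟩) (Or.inl ⟨w, hwB, rfl⟩) hvw.1
    have h2 : b v = b w := he (Or.inr ⟨v, hvB, rfl⟩) (Or.inr ⟨w, hwB, rfl⟩) hvw.2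
    rw [hv _ hvB, hv _ hwB, h1, h2]

lemma zero_notMem_tset [NormalSpace X] {φ : X → (ℕ → Bool)} {T : Set X} (hT : CD T) :
    (0 : V X) ∉ tset φ T := by
  intro h0
  exact zero_notMem_closure_countable (φ := φ) hT (B := {0}) (singleton_subset_iff.2 h0)
    (countable_singleton _) (subset_closure rfl)

end Pool.Agent.V11281.FTVS
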