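import Pool.Agent.V11281.FTVS.LocComp
import Pool.Agent.V11281.FTVS.Sep

/-!
# The levels over a metrizable space which is not locally compact are not `k`-spaces
-/

set_option autoImplicit false

open Set Topology Filter

namespace Pool.Agent.V11281.FTVS

universe u v

variable {X : Type u} [TopologicalSpace X]

/-- a closed noncompact set in a metrizable space contains an infinite set all of whose subsets are
closed -/
lemma exists_infinite_CD [TopologicalSpace.MetrizableSpace X] {B : Set X} (hB : IsClosed B)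
    (hBc : ¬ IsCompact B) : ∃ S ⊆ B, S.Infinite ∧ CD S := by
  letI : MetricSpace X := TopologicalSpace.metrizableSpaceMetric X
  have h1 : ¬ IsSeqCompact B := fun h => hBc (IsSeqCompact.isCompact h)
  unfold IsSeqCompact at h1
  push Not at h1
  obtain ⟨u, hu, hnc⟩ := h1
  have hlf : ∀ x : X, ∃ t ∈ 𝓝 x, {n | u n ∈ t}.Finite := by
    intro x
    by_contra hcon
    push Not at hcon
    have hx : MapClusterPt x atTop u := by
      rw [mapClusterPt_iff_frequently]
      intro t ht
      rw [Nat.frequently_atTop_iff_infinite]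
      exact hcon t ht
    obtain ⟨φ, hφ, hlim⟩ := TopologicalSpace.FirstCountableTopology.tendsto_subseq hx
    have hxB : x ∈ B := hB.mem_of_tendsto hlim (Eventually.of_forall fun n => hu _)
    exact hnc x hxB φ hφ hlim
  have hloc : LocallyFinite fun n => ({u n} : Set X) := by
    intro x
    obtain ⟨t, ht, hfin⟩ := hlf x
    refine ⟨t, ht, hfin.subset ?_⟩
    rintro n ⟨y, hy, hyt⟩
    rw [mem_singleton_iff] at hy
    subst hy
    exact hyt
  refine ⟨range u, ?_, ?_, ?_⟩
  · rintro _ ⟨n, rfl⟩
    exact hu n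
  · intro hfin
    -- some value is attained infinitely often
    have : ∃ x ∈ range u, (u ⁻¹' {x}).Infinite := by
      by_contra hcon
      push Not at hcon
      have h2 : (univ : Set ℕ) ⊆ ⋃ x ∈ range u, u ⁻¹' {x} := fun n _ =>
        mem_biUnion ⟨n, rfl⟩ rfl
      exact infinite_univ ((hfin.biUnion hcon).subset h2)
    obtain ⟨x, -, hx⟩ := this
    obtain ⟨t, ht, hfin⟩ := hlf x
    apply hx
    refine hfin.subset fun n hn => ?_
    rw [mem_preimage, mem_singleton_iff] at hn
    change u n ∈ t
    rw [hn]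
    exact mem_of_mem_nhds ht
  · intro T hT
    have h3 : T = ⋃ n, ({u n} ∩ T) := by
      ext x
      simp only [mem_iUnion, mem_inter_iff, mem_singleton_iff]
      constructor
      · intro hx
        obtain ⟨n, rfl⟩ := hT hx
        exact ⟨n, rfl, hx⟩
      · rintro ⟨n, _, hx⟩
        exact hx
    rw [h3]
    refine (hloc.subset fun n => inter_subset_left).isClosed_iUnion fun n => ?_
    exact ((finite_singleton _).subset inter_subset_left).isClosed

/-- **Main lemma**: over a metrizable space which is not locally compact there is a set in the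
second level meeting compact sets in finite sets with an accumulation point in the second level. -/
theorem exists_bad [TopologicalSpace.MetrizableSpace X] (hX : ¬ WeaklyLocallyCompactSpace X) :
    ∃ (A : Set (V X)) (v : V X), A ⊆ sp X 2 ∧ v ∈ sp X 2 ∧ v ∉ A ∧ v ∈ closure A ∧
      ∀ K : Set (V X), IsCompact K → (K ∩ A).Finite := by
  letI : MetricSpace X := TopologicalSpace.metrizableSpaceMetric X
  obtain ⟨x0, hx0⟩ : ∃ x0 : X, ∀ s : Set X, IsCompact s → s ∉ 𝓝 x0 := by
    by_contra hcon
    push Not at hcon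
    exact hX ⟨hcon⟩
  have hXc : ¬ IsCompact (univ : Set X) := fun h => hx0 _ h univ_mem
  obtain ⟨S0, -, hS0, hS0CD⟩ := exists_infinite_CD isClosed_univ hXc
  have hS1 : (S0 \ {x0}).Infinite := hS0.diff (finite_singleton _)
  have hS1CD : CD (S0 \ {x0}) := hS0CD.mono diff_subset
  let z : ℕ → X := fun n => (hS1.natEmbedding _ n : X)
  have hz : ∀ n, z n ∈ S0 \ {x0} := fun n => (hS1.natEmbedding _ n).2
  have hzinj : Function.Injective z :=
    Subtype.val_injective.comp (hS1.natEmbedding _).injective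
  set Z := range z with hZ
  have hZsub : Z ⊆ S0 \ {x0} := by rintro _ ⟨n, rfl⟩; exact hz n
  have hZCD : CD Z := hS1CD.mono hZsub
  have hZcl : IsClosed Z := hZCD Z subset_rfl
  have hx0Z : x0 ∉ Z := fun h => (hZsub h).2 rfl
  obtain ⟨r, hr, hrZ⟩ : ∃ r > 0, Metric.closedBall x0 r ⊆ Zᶜ :=
    Metric.nhds_basis_closedBall.mem_iff.1 (hZcl.isOpen_compl.mem_nhds hx0Z)
  set B := Metric.closedBall x0 r with hBdef
  -- functions vanishing on `B` with prescribed values on `Z`
  have hfun : ∀ c : X → ℝ, ∃ f : X → ℝ, Continuous f ∧ (∀ n, f (z n) = c (z n)) ∧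
      ∀ x ∈ B, f x = 0 := by
    intro c
    obtain ⟨f, hf, hfc⟩ := hZCD.exists_extension c
    obtain ⟨w, hw0, hw1, -⟩ := exists_continuous_zero_one_of_isClosed
      (Metric.isClosed_closedBall (x := x0) (ε := r)) hZcl
      (disjoint_left.2 fun x hx hxZ => hrZ hx hxZ)
    refine ⟨fun x => f x * w x, hf.mul w.continuous, fun n => ?_, fun x hx => ?_⟩
    · change f (z n) * w (z n) = _
      rw [hfc (z n) ⟨n, rfl⟩, hw1 ⟨n, rfl⟩]
      simp
    · change f x * w x = 0
      rw [hw0 hx]
      simp
  -- noncompact balls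
  have hball : ∀ n : ℕ, ∃ y : ℕ → X, ∃ g : X → ℝ, (∀ m, y m ∈ B) ∧
      (∀ m, dist (y m) x0 ≤ 1 / ((n : ℝ) + 1)) ∧ Continuous g ∧ ∀ m, g (y m) = m := by
    intro n
    have hrp : 0 < min r (1 / ((n : ℝ) + 1)) := lt_min hr (by positivity)
    have h1 : ¬ IsCompact (Metric.closedBall x0 (min r (1 / ((n : ℝ) + 1)))) := fun h =>
      hx0 _ h (Metric.closedBall_mem_nhds x0 hrp)
    obtain ⟨S, hSB, hS, hSCD⟩ := exists_infinite_CD Metric.isClosed_closedBall h1
    let y : ℕ → X := fun m => (hS.natEmbedding _ m : X)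
    have hy : ∀ m, y m ∈ S := fun m => (hS.natEmbedding _ m).2
    have hyinj : Function.Injective y :=
      Subtype.val_injective.comp (hS.natEmbedding _).injective
    classical
    obtain ⟨g, hg, hgS⟩ := hSCD.exists_extension
      (fun x => if h : ∃ m, y m = x then (h.choose : ℝ) else 0)
    refine ⟨y, g, fun m => ?_, fun m => ?_, hg, fun m => ?_⟩
    · have := hSB (hy m)
      exact Metric.closedBall_subset_closedBall (min_le_left _ _) this
    · have := hSB (hy m)
      exact (Metric.mem_closedBall.1 this).trans (min_le_right _ _)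
    · have hex : ∃ m', y m' = y m := ⟨m, rfl⟩
      rw [hgS _ (hy m), dif_pos hex]
      have := hyinj hex.choose_spec
      rw [this]
  choose y g hyB hydist hg hgy using hball
  let a : ℕ → ℕ → V X := fun n m => (1 / ((m : ℝ) + 1)) • ι (z n) + ι (y n m)
  let A : Set (V X) := {v | ∃ n m, v = a n m}
  have hle1 : ∀ m : ℕ, (1 : ℝ) / ((m : ℝ) + 1) ≤ 1 := fun m => by
    rw [div_le_one (by positivity)]
    have : (0 : ℝ) ≤ m := Nat.cast_nonneg _
    linarith
  refine ⟨A, ι x0, ?_, ?_, ?_, ?_, ?_⟩
  · rintro _ ⟨n, m, rfl⟩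
    refine ⟨![1 / ((m : ℝ) + 1), 1], ![z n, y n m], fun i => ?_, ?_⟩
    · have h0 : (0 : ℝ) ≤ 1 / ((m : ℝ) + 1) := by positivity
      have h1 := hle1 m
      fin_cases i
      · simp only [Fin.zero_eta, Matrix.cons_val_zero, mem_Icc, Nat.cast_ofNat]
        constructor <;> linarith
      · simp only [Fin.mk_one, Matrix.cons_val_one, mem_Icc, Nat.cast_ofNat]
        constructor <;> norm_num
    · simp [a, Fin.sum_univ_two]
  · refine ⟨![0, 1], ![x0, x0], fun i => ?_, ?_⟩
    · fin_cases i
      · simp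
      · simp only [Fin.mk_one, Matrix.cons_val_one, mem_Icc, Nat.cast_ofNat]
        constructor <;> norm_num
    · simp [Fin.sum_univ_two]
  · rintro ⟨n, m, h⟩
    obtain ⟨f, hf, hfz, hfB⟩ := hfun (fun _ => 1)
    have h1 : lift f (ι x0) = lift f (a n m) := by rw [h]
    simp only [a, map_add, map_smul, lift_ι, smul_eq_mul] at h1
    rw [hfz, hfB _ (hyB n m), hfB x0 (Metric.mem_closedBall_self hr.le)] at h1
    have h2 : (0 : ℝ) < 1 / ((m : ℝ) + 1) := by positivity
    linarith
  · rw [mem_closure_iff_nhds]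
    intro U hU
    have hadd : Tendsto (fun p : V X × V X => p.1 + p.2) (𝓝 (0, ι x0)) (𝓝 (ι x0)) := by
      have := (continuous_add (M := V X)).tendsto ((0 : V X), ι x0)
      simpa using this
    have h1 := hadd hU
    rw [nhds_prod_eq] at h1
    obtain ⟨U1, hU1, U2, hU2, hU12⟩ := Filter.mem_prod_iff.1 h1
    have h2 : ι ⁻¹' U2 ∈ 𝓝 x0 := continuous_ι.continuousAt hU2
    obtain ⟨ε, hε, hεU⟩ := Metric.nhds_basis_closedBall.mem_iff.1 h2
    obtain ⟨n, hn⟩ := exists_nat_one_div_lt hε
    have h3 : Tendsto (fun m : ℕ => (1 / ((m : ℝ) + 1)) • ι (z n)) atTop (𝓝 ((0 : ℝ) • ι (z n))) :=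
      tendsto_one_div_add_atTop_nhds_zero_nat.smul_const _
    rw [zero_smul] at h3
    obtain ⟨m, hm⟩ := (h3.eventually hU1).exists
    refine ⟨a n m, hU12 (mk_mem_prod hm ?_), n, m, rfl⟩
    exact hεU (Metric.mem_closedBall.2 ((hydist n m).trans hn.le))
  · intro K hK
    by_contra hinf
    have hinf : (K ∩ A).Infinite := hinf
    let J : Set (ℕ × ℕ) := {p | a p.1 p.2 ∈ K}
    have hJ : J.Infinite := by
      intro hfin
      apply hinf
      refine (hfin.image fun p => a p.1 p.2).subset ?_
      rintro _ ⟨hvK, n, m, rfl⟩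
      exact ⟨(n, m), hvK, rfl⟩
    -- each row is finite
    have hrow : ∀ n, {m | a n m ∈ K}.Finite := by
      intro n
      obtain ⟨M, hM⟩ := (hK.image (continuous_lift (hg n))).bddAbove
      obtain ⟨N, hN⟩ := exists_nat_gt (M + |g n (z n)|)
      refine (finite_Iio N).subset fun m hm => ?_
      have h1 : lift (g n) (a n m) ≤ M := hM ⟨a n m, hm, rfl⟩
      simp only [a, map_add, map_smul, lift_ι, smul_eq_mul, hgy] at h1
      have h2 : -|g n (z n)| ≤ 1 / ((m : ℝ) + 1) * g n (z n) := by
        have h3 : |1 / ((m : ℝ) + 1) * g n (z n)| ≤ |g n (z n)| := by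
          rw [abs_mul, abs_of_nonneg (show (0 : ℝ) ≤ 1 / ((m : ℝ) + 1) by positivity)]
          exact mul_le_of_le_one_left (abs_nonneg _) (hle1 m)
        exact (abs_le.1 h3).1
      have h3 : (m : ℝ) < N := by linarith
      exact_mod_cast h3
    -- infinitely many rows
    have hrows : {n | ∃ m, a n m ∈ K}.Infinite := by
      intro hfin
      apply hJ
      refine (hfin.biUnion fun n _ => (hrow n).image fun m => (n, m)).subset ?_
      rintro ⟨n, m⟩ hnm
      exact mem_biUnion (show n ∈ {n | ∃ m, a n m ∈ K} from ⟨m, hnm⟩) ⟨m, hnm, rfl⟩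
    classical
    let μ : ℕ → ℕ := fun n => if h : ∃ m, a n m ∈ K then h.choose else 0
    have hμ : ∀ n ∈ {n | ∃ m, a n m ∈ K}, a n (μ n) ∈ K := by
      intro n hn
      have hn' : ∃ m, a n m ∈ K := hn
      simp only [μ]
      rw [dif_pos hn']
      exact hn'.choose_spec
    obtain ⟨f, hf, hfz, hfB⟩ := hfun
      (fun x => if h : ∃ n, z n = x then (h.choose : ℝ) * (μ h.choose + 1) else 0)
    have hfz' : ∀ n, f (z n) = n * (μ n + 1) := by
      intro n
      have hex : ∃ m, z m = z n := ⟨n, rfl⟩
      rw [hfz, dif_pos hex]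
      have := hzinj hex.choose_spec
      rw [this]
    obtain ⟨M, hM⟩ := (hK.image (continuous_lift hf)).bddAbove
    obtain ⟨N, hN⟩ := exists_nat_gt M
    obtain ⟨n, hn, hNn⟩ := hrows.exists_gt N
    have h1 : lift f (a n (μ n)) ≤ M := hM ⟨a n (μ n), hμ n hn, rfl⟩
    simp only [a, map_add, map_smul, lift_ι, smul_eq_mul] at h1
    rw [hfz', hfB _ (hyB n _)] at h1
    have h2 : 1 / ((μ n : ℝ) + 1) * ((n : ℝ) * (μ n + 1)) = n := by
      have : (μ n : ℝ) + 1 ≠ 0 := by positivity
      field_simp
    rw [h2] at h1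
    have h3 : (N : ℝ) < n := by exact_mod_cast hNn
    linarith

/-- **Main theorem.** For a metrizable space `X`, if `sp m` is a `k`-space for some `m ≥ 2` then
`X` is separable and locally compact and every `sp n` is a `k`-space. -/
theorem main [TopologicalSpace.MetrizableSpace X] {m : ℕ} (hm : 2 ≤ m) (h : IsKSpace (sp X m)) :
    TopologicalSpace.SeparableSpace X ∧ WeaklyLocallyCompactSpace X ∧
      ∀ n, IsKSpace (sp X n) := by
  have hmono : sp X 2 ⊆ sp X m := by
    rintro _ ⟨l, x, hl, rfl⟩
    obtain ⟨k, rfl⟩ : ∃ k, m = k + 2 := ⟨m - 2, by omega⟩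
    have hk : (2 : ℝ) ≤ ((k + 2 : ℕ) : ℝ) := by push_cast; linarith [(Nat.cast_nonneg k : (0 : ℝ) ≤ k)]
    refine ⟨Fin.cons (l 0) (Fin.cons (l 1) fun _ => 0),
      Fin.cons (x 0) (Fin.cons (x 1) fun _ => x 0), ?_, ?_⟩
    · intro i
      have h0 := hl 0
      have h1 := hl 1
      rw [mem_Icc] at h0 h1
      push_cast at h0 h1
      refine Fin.cases ?_ (fun i => Fin.cases ?_ (fun i => ?_) i) i
      · simp only [Fin.cons_zero, mem_Icc]
        constructor <;> linarith [h0.1, h0.2]
      · simp only [Fin.cons_succ, Fin.cons_zero, mem_Icc]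
        constructor <;> linarith [h1.1, h1.2]
      · simp only [Fin.cons_succ, mem_Icc]
        constructor <;> linarith
    · rw [Fin.sum_univ_two, Fin.sum_univ_succ (n := k + 1), Fin.sum_univ_succ (n := k)]
      simp
  -- transfer of bad sets
  have transfer : ∀ (A : Set (V X)) (v : V X), A ⊆ sp X m → v ∈ sp X m → v ∉ A → v ∈ closure A →
      (∀ K : Set (V X), IsCompact K → (K ∩ A).Finite) → False := by
    intro A v hA hv hvA hcl hfin
    have h1 : IsClosed (Subtype.val ⁻¹' A : Set (sp X m)) := by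
      apply h
      intro K hK
      have h2 : (Subtype.val '' K ∩ A).Finite := hfin _ (hK.image continuous_subtype_val)
      have h3 : (Subtype.val ⁻¹' (Subtype.val ⁻¹' A : Set (sp X m)) : Set K).Finite := by
        refine Set.Finite.of_finite_image
          (f := fun x : K => ((x : sp X m) : V X)) (h2.subset ?_) ?_
        · rintro _ ⟨x, hx, rfl⟩
          exact ⟨⟨x, x.2, rfl⟩, hx⟩
        · exact fun x _ y _ hxy => Subtype.ext (Subtype.ext hxy)
      exact h3.isClosed
    have h2 : (⟨v, hv⟩ : sp X m) ∈ closure (Subtype.val ⁻¹' A : Set (sp X m)) := by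
      rw [closure_subtype, Subtype.image_preimage_coe, inter_eq_right.2 hA]
      exact hcl
    rw [h1.closure_eq] at h2
    exact hvA h2
  have hsep : TopologicalSpace.SeparableSpace X := by
    by_contra hX
    obtain ⟨S, hS, hSCD⟩ := exists_uncountable_CD hX
    obtain ⟨T, hTS, hT, φ, hφ⟩ := exists_code hS
    have hTCD : CD T := hSCD.mono hTS
    have hne : Nonempty X := by
      by_contra hne
      have : IsEmpty X := not_nonempty_iff.1 hne
      exact hT (to_countable _)
    refine transfer (tset φ T) 0 (tset_subset_sp φ T hm) ?_ (zero_notMem_tset hTCD)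
      (zero_mem_closure hT hφ) (fun K hK => finite_inter_compact hTCD hK)
    obtain ⟨x⟩ := hne
    exact ⟨fun _ => 0, fun _ => x, fun i => by simp, by simp⟩
  have hlc : WeaklyLocallyCompactSpace X := by
    by_contra hX
    obtain ⟨A, v, hA, hv, hvA, hcl, hfin⟩ := exists_bad hX
    exact transfer A v (hA.trans hmono) (hmono hv) hvA hcl hfin
  refine ⟨hsep, hlc, fun n => ?_⟩
  letI : MetricSpace X := TopologicalSpace.metrizableSpaceMetric X
  have : SecondCountableTopology X := UniformSpace.secondCountable_of_separable X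
  have : SigmaCompactSpace X := sigmaCompactSpace_of_locallyCompact_secondCountable
  exact isKSpace_sp_of_locallyCompact n

end Pool.Agent.V11281.FTVS
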